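import Mathlib
import Pool.Agent.G9.Stmts

/-!
# Squad GNI, row DEL: random subgraph and deletion
-/

set_option autoImplicit false

namespace Pool.Agent.G9.H11

open Finset

theorem delNcard {V : Type} [Fintype V] (P : V × V → Prop) [∀ q, Decidable (P q)] :
    (({q : V × V | P q}.ncard : ℕ) : ℝ) = ∑ u, ∑ v, if P (u, v) then (1 : ℝ) else 0 := by
  have h1 : {q : V × V | P q} = ((univ.filter fun q => P q : Finset (V × V)) : Set (V × V)) := by
    ext q
    simp
  rw [h1, Set.ncard_coe_finset, Finset.card_filter, Fintype.sum_prod_type]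
  push_cast
  rfl

theorem delEven {V : Type} [Fintype V] (H : SimpleGraph V) :
    ∃ e : ℕ, {q : V × V | H.Adj q.1 q.2}.ncard = 2 * e := by
  classical
  refine ⟨H.edgeFinset.card, ?_⟩
  rw [← SimpleGraph.sum_degrees_eq_twice_card_edges]
  have h := delNcard (fun q : V × V => H.Adj q.1 q.2)
  have h2 : ((({q : V × V | H.Adj q.1 q.2}.ncard : ℕ) : ℝ)) = ((∑ v, H.degree v : ℕ) : ℝ) := by
    rw [h]
    push_cast
    refine Finset.sum_congr rfl fun u _ => ?_
    rw [← SimpleGraph.card_neighborFinset_eq_degree, SimpleGraph.neighborFinset_eq_filter,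
      Finset.card_filter]
    push_cast
    rfl
  exact_mod_cast h2

theorem delCore (rnd : RndStmt) (cut : CutStmt) {V : Type} [Fintype V] [DecidableEq V]
    [Nonempty V] (G : SimpleGraph V) [DecidableRel G.Adj] (K D : ℕ) (L R X : ℝ) (hK : 1 ≤ K)
    (hKD : K ≤ D) (hdeg : ∀ v, G.degree v ≤ D)
    (hL : ∀ x : V → ℝ, (∀ v, x v = 1 ∨ x v = -1) →
      -L ≤ ∑ u, ∑ v, (if G.Adj u v then x u * x v else 0))
    (hR : R = 6 * Fintype.card V * Real.sqrt ((D : ℝ) / K))
    {ι : Type} [Fintype ι] (t : ι → Finset (Sym2 V)) (p : ι → V × V)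
    (hp : ∀ i, s((p i).1, (p i).2) ∈ t i) (hX : ∑ i, 1 / (K : ℝ) ^ (t i).card ≤ X) :
    ∃ (H : SimpleGraph V) (e : ℕ), (∀ u v, H.Adj u v → G.Adj u v) ∧
      (∀ i, ∃ z ∈ t i, z ∉ H.edgeSet) ∧
      {q : V × V | H.Adj q.1 q.2}.ncard = 2 * e ∧
      (∑ u, ∑ v, (if G.Adj u v then (1 : ℝ) else 0)) / K - R - 6 * X ≤ 2 * (e : ℝ) ∧
      2 * (e : ℝ) ≤ 3 * (Fintype.card V * D / K) ∧
      ∀ S : Set V, (({q : V × V | q.1 ∈ S ∧ q.2 ∉ S ∧ H.Adj q.1 q.2}.ncard : ℕ) : ℝ) ≤
        e / 2 + (L / K + R + 6 * X) / 4 := by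
  classical
  have hK0 : (0 : ℝ) < K := by
    have : 0 < K := hK
    exact_mod_cast this
  obtain ⟨A, hA1, hA2, hA3⟩ := rnd V G K (D : ℝ) hK (by exact_mod_cast hKD)
    (fun v => by exact_mod_cast hdeg v)
    (fun T => ∑ i, if t i = T then (1 : ℝ) else 0)
    (fun T => Finset.sum_nonneg fun i _ => by split_ifs <;> norm_num)
  have hcount : ((univ.filter fun i => t i ⊆ A).card : ℝ) ≤ 3 * X := by
    have e1 : ∑ T, (if T ⊆ A then ∑ i, (if t i = T then (1 : ℝ) else 0) else 0) =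
        ((univ.filter fun i => t i ⊆ A).card : ℝ) := by
      have e0 : ∀ T : Finset (Sym2 V),
          (if T ⊆ A then ∑ i, (if t i = T then (1 : ℝ) else 0) else 0) =
          ∑ i, (if t i = T then (if t i ⊆ A then (1 : ℝ) else 0) else 0) := by
        intro T
        by_cases hT : T ⊆ A
        · rw [if_pos hT]
          refine Finset.sum_congr rfl fun i _ => ?_
          by_cases h : t i = T
          · rw [if_pos h, if_pos h, h, if_pos hT]
          · rw [if_neg h, if_neg h]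
        · rw [if_neg hT]
          symm
          refine Finset.sum_eq_zero fun i _ => ?_
          by_cases h : t i = T
          · rw [if_pos h, h, if_neg hT]
          · rw [if_neg h]
      rw [Finset.sum_congr rfl fun T _ => e0 T, Finset.sum_comm, Finset.card_filter]
      push_cast
      refine Finset.sum_congr rfl fun i _ => ?_
      rw [Finset.sum_ite_eq univ (t i), if_pos (mem_univ _)]
    have e2 : ∑ T, (∑ i, (if t i = T then (1 : ℝ) else 0)) / (K : ℝ) ^ T.card =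
        ∑ i, 1 / (K : ℝ) ^ (t i).card := by
      have e0 : ∀ T : Finset (Sym2 V),
          (∑ i, (if t i = T then (1 : ℝ) else 0)) / (K : ℝ) ^ T.card =
          ∑ i, (if t i = T then 1 / (K : ℝ) ^ (t i).card else 0) := by
        intro T
        rw [Finset.sum_div]
        refine Finset.sum_congr rfl fun i _ => ?_
        by_cases h : t i = T
        · rw [if_pos h, if_pos h, h]
        · rw [if_neg h, if_neg h, zero_div]
      rw [Finset.sum_congr rfl fun T _ => e0 T, Finset.sum_comm]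
      refine Finset.sum_congr rfl fun i _ => ?_
      rw [Finset.sum_ite_eq univ (t i), if_pos (mem_univ _)]
    rw [e1, e2] at hA2
    linarith
  obtain ⟨Bad, hBad⟩ : ∃ Bad : Sym2 V → Prop,
      ∀ z, Bad z ↔ ∃ i, t i ⊆ A ∧ z = s((p i).1, (p i).2) := ⟨_, fun _ => Iff.rfl⟩
  obtain ⟨H, hH⟩ : ∃ H : SimpleGraph V, ∀ u v, H.Adj u v ↔
      (G.Adj u v ∧ s(u, v) ∈ A ∧ ¬ Bad s(u, v)) :=
    ⟨{ Adj := fun u v => G.Adj u v ∧ s(u, v) ∈ A ∧ ¬ Bad s(u, v)
       symm := ⟨fun u v h => ⟨h.1.symm, by rw [Sym2.eq_swap]; exact h.2.1,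
         by rw [Sym2.eq_swap]; exact h.2.2⟩⟩
       loopless := ⟨fun u h => h.1.ne rfl⟩ }, fun _ _ => Iff.rfl⟩
  have hbadpairs : ∑ u, ∑ v, (if Bad s(u, v) then (1 : ℝ) else 0) ≤ 6 * X := by
    have hn := delNcard (fun q : V × V => Bad s(q.1, q.2))
    simp only at hn
    rw [← hn]
    have hsub : {q : V × V | Bad s(q.1, q.2)} ⊆
        (((univ.filter fun i => t i ⊆ A).image p ∪
          (univ.filter fun i => t i ⊆ A).image (fun i => (p i).swap) : Finset (V × V)) :
            Set (V × V)) := by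
      rintro ⟨u, v⟩ hq
      rw [Set.mem_setOf_eq, hBad] at hq
      obtain ⟨i, hi, he⟩ := hq
      have he' : s(u, v) = s((p i).1, (p i).2) := he
      rw [Sym2.eq_iff] at he'
      rw [Finset.mem_coe, Finset.mem_union, Finset.mem_image, Finset.mem_image]
      rcases he' with ⟨h1, h2⟩ | ⟨h1, h2⟩
      · exact Or.inl ⟨i, Finset.mem_filter.mpr ⟨mem_univ _, hi⟩, Prod.ext h1.symm h2.symm⟩
      · exact Or.inr ⟨i, Finset.mem_filter.mpr ⟨mem_univ _, hi⟩, Prod.ext h1.symm h2.symm⟩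
    have h1 := Set.ncard_le_ncard hsub (Finset.finite_toSet _)
    rw [Set.ncard_coe_finset] at h1
    have h3 := h1.trans ((Finset.card_union_le _ _).trans
      (add_le_add Finset.card_image_le Finset.card_image_le))
    have h4 : ((({q : V × V | Bad s(q.1, q.2)}.ncard : ℕ) : ℝ)) ≤
        ((univ.filter fun i => t i ⊆ A).card : ℝ) + ((univ.filter fun i => t i ⊆ A).card : ℝ) := by
      exact_mod_cast h3
    linarith
  have hlow : ∀ x : V → ℝ, (∀ v, x v = 1 ∨ x v = -1) →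
      ∑ u, ∑ v, (if G.Adj u v ∧ s(u, v) ∈ A then x u * x v else 0) - 6 * X ≤
        ∑ u, ∑ v, (if H.Adj u v then x u * x v else 0) := by
    intro x hx
    have hpt : ∀ u v, (if G.Adj u v ∧ s(u, v) ∈ A then x u * x v else 0) -
        (if Bad s(u, v) then (1 : ℝ) else 0) ≤ (if H.Adj u v then x u * x v else 0) := by
      intro u v
      have hxx : x u * x v ≤ 1 := by
        rcases hx u with h | h <;> rcases hx v with h' | h' <;> rw [h, h'] <;> norm_num
      by_cases h1 : G.Adj u v ∧ s(u, v) ∈ A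
      · by_cases h2 : Bad s(u, v)
        · rw [if_pos h1, if_pos h2, if_neg (fun h : H.Adj u v => ((hH u v).mp h).2.2 h2)]
          linarith
        · rw [if_pos h1, if_neg h2, if_pos ((hH u v).mpr ⟨h1.1, h1.2, h2⟩)]
          linarith
      · rw [if_neg h1, if_neg (fun h : H.Adj u v => h1 ⟨((hH u v).mp h).1, ((hH u v).mp h).2.1⟩)]
        by_cases h2 : Bad s(u, v)
        · rw [if_pos h2]
          norm_num
        · rw [if_neg h2]
          norm_num
    have hs := Finset.sum_le_sum fun u (_ : u ∈ (univ : Finset V)) =>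
      Finset.sum_le_sum fun v (_ : v ∈ (univ : Finset V)) => hpt u v
    simp only [Finset.sum_sub_distrib] at hs
    linarith
  obtain ⟨e, he⟩ := delEven H
  have he2 : 2 * (e : ℝ) = ∑ u, ∑ v, (if H.Adj u v then (1 : ℝ) else 0) := by
    have hn := delNcard (fun q : V × V => H.Adj q.1 q.2)
    rw [he] at hn
    push_cast at hn
    exact hn
  have hxlow : ∀ x : V → ℝ, (∀ v, x v = 1 ∨ x v = -1) →
      (∑ u, ∑ v, (if G.Adj u v then x u * x v else 0)) / K - R - 6 * X ≤
        ∑ u, ∑ v, (if H.Adj u v then x u * x v else 0) := by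
    intro x hx
    have h1 := hlow x hx
    have h2 := hA1 x hx
    rw [hR]
    linarith
  refine ⟨H, e, fun u v h => ((hH u v).mp h).1, ?_, he, ?_, ?_, ?_⟩
  · intro i
    by_cases hi : t i ⊆ A
    · refine ⟨s((p i).1, (p i).2), hp i, ?_⟩
      rw [SimpleGraph.mem_edgeSet, hH]
      intro h
      exact h.2.2 ((hBad _).mpr ⟨i, hi, rfl⟩)
    · obtain ⟨z, hz, hz'⟩ := Finset.not_subset.mp hi
      refine ⟨z, hz, ?_⟩
      revert hz'
      refine Sym2.ind (fun u v => ?_) z
      intro hz'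
      rw [SimpleGraph.mem_edgeSet, hH]
      intro h
      exact hz' h.2.1
  · have h1 := hxlow (fun _ => 1) (fun _ => Or.inl rfl)
    simp only [mul_one] at h1
    rw [he2]
    exact h1
  · rw [he2]
    refine le_trans ?_ hA3
    refine Finset.sum_le_sum fun u _ => Finset.sum_le_sum fun v _ => ?_
    by_cases h : H.Adj u v
    · rw [if_pos h, if_pos ⟨((hH u v).mp h).1, ((hH u v).mp h).2.1⟩]
    · rw [if_neg h]
      split_ifs <;> norm_num
  · refine cut V H e (L / K + R + 6 * X) he ?_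
    intro x hx
    have h1 := hxlow x hx
    have h2 := hL x hx
    have h3 : -(L / K) ≤ (∑ u, ∑ v, (if G.Adj u v then x u * x v else 0)) / K := by
      rw [← neg_div]
      exact div_le_div_of_nonneg_right h2 hK0.le
    linarith

/-- The edges of a closed walk. -/
def delEs {V : Type} [DecidableEq V] {l : ℕ} [NeZero l] (v : ZMod l → V) : Finset (Sym2 V) :=
  univ.image fun i => s(v i, v (i + 1))

theorem delEs_card {V : Type} [DecidableEq V] {l : ℕ} [NeZero l] (hl : (2 : ZMod l) ≠ 0)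
    (v : ZMod l → V) (hv : Function.Injective v) : (delEs v).card = l := by
  unfold delEs
  rw [Finset.card_image_of_injective, card_univ, ZMod.card]
  intro i j hij
  rcases Sym2.eq_iff.mp hij with ⟨h1, _⟩ | ⟨h1, h2⟩
  · exact hv h1
  · exfalso
    have e1 : i = j + 1 := hv h1
    have e2 : i + 1 = j := hv h2
    apply hl
    linear_combination e2 - e1

theorem delEs_not {V : Type} [DecidableEq V] {l : ℕ} [NeZero l] (v : ZMod l → V)
    (H : SimpleGraph V) (h : ∃ z ∈ delEs v, z ∉ H.edgeSet) : ¬ ∀ i, H.Adj (v i) (v (i + 1)) := by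
  intro hall
  obtain ⟨z, hz, hz'⟩ := h
  obtain ⟨i, _, rfl⟩ := Finset.mem_image.mp hz
  exact hz' (hall i)

theorem delEs_sum {V : Type} [Fintype V] [DecidableEq V] {l : ℕ} [NeZero l]
    (hl : (2 : ZMod l) ≠ 0) (G : SimpleGraph V) [Fintype ↥(CycT l G)] (K : ℕ) (N : ℕ)
    (hN : (CycT l G).ncard ≤ N) :
    ∑ v : ↥(CycT l G), 1 / (K : ℝ) ^ (delEs v.1).card ≤ N / (K : ℝ) ^ l := by
  have h1 : ∀ v : ↥(CycT l G), 1 / (K : ℝ) ^ (delEs v.1).card = 1 / (K : ℝ) ^ l := by
    intro v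
    rw [delEs_card hl v.1 v.2.1]
  rw [Finset.sum_congr rfl fun v _ => h1 v, Finset.sum_const, card_univ, nsmul_eq_mul,
    Fintype.card_eq_nat_card, Nat.card_coe_set_eq, mul_one_div]
  refine div_le_div_of_nonneg_right ?_ (by positivity)
  exact_mod_cast hN

theorem del (rnd : RndStmt) (cut : CutStmt) (emp : EmpStmt) (cnt : CntStmt) : DelStmt := by
  intro V _ _ _ G _ K D L R hK hKD hG hdeg hL hR
  classical
  obtain ⟨e3, e4, e5, e6, e8, e10⟩ := emp V G hG
  obtain ⟨c7, c9⟩ := cnt V G D hG hdeg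
  have sub : ∀ (H : SimpleGraph V), (∀ u v, H.Adj u v → G.Adj u v) → ∀ l,
      CycT l H ⊆ CycT l G := fun H hH l v hv => ⟨hv.1, fun i => hH _ _ (hv.2 i)⟩
  haveI f7 : Fintype ↥(CycT 7 G) := Fintype.ofFinite _
  haveI f9 : Fintype ↥(CycT 9 G) := Fintype.ofFinite _
  have s7 := delEs_sum (l := 7) (by decide) G K _ c7
  have s9 := delEs_sum (l := 9) (by decide) G K _ c9
  push_cast at s7 s9
  constructor
  · obtain ⟨H, e, h1, h2, h3, h4, h5, h6⟩ := delCore rnd cut G K D L R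
      (Fintype.card V * (D : ℝ) ^ 2 / (K : ℝ) ^ 7) hK hKD hdeg hL hR (ι := ↥(CycT 7 G))
      (fun v => delEs v.1) (fun v => (v.1 0, v.1 (0 + 1)))
      (fun v => Finset.mem_image.mpr ⟨0, mem_univ _, rfl⟩) s7
    have hX : 6 * (Fintype.card V * (D : ℝ) ^ 2 / (K : ℝ) ^ 7) =
        6 * Fintype.card V * (D : ℝ) ^ 2 / (K : ℝ) ^ 7 := by ring
    rw [hX] at h4 h6
    refine ⟨e, h4, h5, V, inferInstance, H, h3, ?_, h6⟩
    intro l hl3 hl9
    have hc7 : CycT 7 H = ∅ := by
      refine Set.eq_empty_iff_forall_notMem.mpr fun v hv => ?_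
      exact delEs_not v H (h2 ⟨v, sub H h1 7 hv⟩) hv.2
    interval_cases l
    · exact Set.subset_eq_empty (sub H h1 3) e3
    · exact Set.subset_eq_empty (sub H h1 4) e4
    · exact Set.subset_eq_empty (sub H h1 5) e5
    · exact Set.subset_eq_empty (sub H h1 6) e6
    · exact hc7
    · exact Set.subset_eq_empty (sub H h1 8) e8
  · have s79 : ∑ i : ↥(CycT 7 G) ⊕ ↥(CycT 9 G), 1 / (K : ℝ) ^
        (Sum.elim (fun v : ↥(CycT 7 G) => delEs v.1) (fun v : ↥(CycT 9 G) => delEs v.1) i).card ≤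
        Fintype.card V * ((D : ℝ) ^ 2 / (K : ℝ) ^ 7 + (D : ℝ) ^ 4 / (K : ℝ) ^ 9) := by
      rw [Fintype.sum_sum_type]
      simp only [Sum.elim_inl, Sum.elim_inr]
      have hr : (Fintype.card V : ℝ) * ((D : ℝ) ^ 2 / (K : ℝ) ^ 7 + (D : ℝ) ^ 4 / (K : ℝ) ^ 9) =
        Fintype.card V * (D : ℝ) ^ 2 / (K : ℝ) ^ 7 +
          Fintype.card V * (D : ℝ) ^ 4 / (K : ℝ) ^ 9 := by ring
      rw [hr]
      exact add_le_add s7 s9
    obtain ⟨H, e, h1, h2, h3, h4, h5, h6⟩ := delCore rnd cut G K D L R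
      (Fintype.card V * ((D : ℝ) ^ 2 / (K : ℝ) ^ 7 + (D : ℝ) ^ 4 / (K : ℝ) ^ 9))
      hK hKD hdeg hL hR (ι := ↥(CycT 7 G) ⊕ ↥(CycT 9 G))
      (Sum.elim (fun v : ↥(CycT 7 G) => delEs v.1) (fun v : ↥(CycT 9 G) => delEs v.1))
      (Sum.elim (fun v => (v.1 0, v.1 (0 + 1))) (fun v => (v.1 0, v.1 (0 + 1))))
      (fun i => by
        rcases i with v | v
        · exact Finset.mem_image.mpr ⟨0, mem_univ _, rfl⟩
        · exact Finset.mem_image.mpr ⟨0, mem_univ _, rfl⟩) s79
    rw [← mul_assoc] at h4 h6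
    refine ⟨e, h4, h5, V, inferInstance, H, h3, ?_, h6⟩
    intro l hl3 hl11
    have hc7 : CycT 7 H = ∅ := by
      refine Set.eq_empty_iff_forall_notMem.mpr fun v hv => ?_
      exact delEs_not v H (h2 (Sum.inl ⟨v, sub H h1 7 hv⟩)) hv.2
    have hc9 : CycT 9 H = ∅ := by
      refine Set.eq_empty_iff_forall_notMem.mpr fun v hv => ?_
      exact delEs_not v H (h2 (Sum.inr ⟨v, sub H h1 9 hv⟩)) hv.2
    interval_cases l
    · exact Set.subset_eq_empty (sub H h1 3) e3
    · exact Set.subset_eq_empty (sub H h1 4) e4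
    · exact Set.subset_eq_empty (sub H h1 5) e5
    · exact Set.subset_eq_empty (sub H h1 6) e6
    · exact hc7
    · exact Set.subset_eq_empty (sub H h1 8) e8
    · exact hc9
    · exact Set.subset_eq_empty (sub H h1 10) e10

end Pool.Agent.G9.H11
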